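import Mathlib
import Pool.Agent.Helpers.H19ChainD

set_option autoImplicit false

namespace Pool.Agent.Results.MP_053bca_co.OddOrderChains

universe u

/-- A finite group `G` of odd order `n` has a chain of rank `n - 1` in its Cayley table, that is, a
permutation `θ` of `G` with exactly `n - 1` distinct products `x * θ x`, if and only if `G` is
non-abelian. -/
theorem result (G : Type u) [Group G] [Finite G] (hodd : Odd (Nat.card G)) :
    (∃ θ : Equiv.Perm G, (Set.range fun x : G => x * θ x).ncard = Nat.card G - 1) ↔
      ∃ x y : G, x * y ≠ y * x :=
  Pool.Agent.Helpers.H19ChainD.main hodd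

end Pool.Agent.Results.MP_053bca_co.OddOrderChains
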